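import Pool.Agent.N356.SP.Defs4
import Pool.Agent.N645.LS.L7a

set_option autoImplicit false

/-! # Project LS (helper356), KS12: the class inequality in `L^8`, from KS9, KS10, KS11 -/

namespace Pool.Agent.N286.LS

open Finset Pool.Agent.H384R3.SPk Pool.Agent.N356.SP MeasureTheory
open Pool.Agent.N645.LS (cosp_cont)

/-- Cauchy-Schwarz -/
lemma cs {H P Q : ℝ → ℝ} (hH : Continuous H) (hP : Continuous P) (hQ : Continuous Q)
    (P0 : ∀ x, 0 ≤ P x) (Q0 : ∀ x, 0 ≤ Q x) (h : ∀ x, H x ^ 2 ≤ P x * Q x) :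
    (∫ x in (0:ℝ)..1, H x) ^ 2 ≤ (∫ x in (0:ℝ)..1, P x) * ∫ x in (0:ℝ)..1, Q x := by
  have h1 : ∀ l : ℝ, 0 ≤ (∫ x in (0:ℝ)..1, P x) * (l * l) + (2 * ∫ x in (0:ℝ)..1, H x) * l +
      ∫ x in (0:ℝ)..1, Q x := by
    intro l
    have e1 : (∫ x in (0:ℝ)..1, P x) * (l * l) + (2 * ∫ x in (0:ℝ)..1, H x) * l +
      (∫ x in (0:ℝ)..1, Q x) = ∫ x in (0:ℝ)..1, (P x * (l * l) + 2 * H x * l + Q x) := by
      rw [intervalIntegral.integral_add, intervalIntegral.integral_add,
        intervalIntegral.integral_mul_const, intervalIntegral.integral_mul_const,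
        intervalIntegral.integral_const_mul]
      · exact (hP.mul continuous_const).intervalIntegrable _ _
      · exact ((continuous_const.mul hH).mul continuous_const).intervalIntegrable _ _
      · exact ((hP.mul continuous_const).add
          ((continuous_const.mul hH).mul continuous_const)).intervalIntegrable _ _
      · exact hQ.intervalIntegrable _ _
    rw [e1]
    refine intervalIntegral.integral_nonneg zero_le_one fun x _ => ?_
    have h2 := h x
    have h3 := P0 x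
    have h4 := Q0 x
    rcases h3.eq_or_lt with h5 | h5
    · rw [← h5] at h2 ⊢
      have h6 : H x = 0 := by
        have h7 : H x ^ 2 = 0 := le_antisymm (by linarith) (sq_nonneg _)
        exact pow_eq_zero_iff two_ne_zero |>.1 h7
      rw [h6]
      simpa using h4
    · have h6 : 0 ≤ P x * (P x * (l * l) + 2 * H x * l + Q x) := by
        nlinarith [sq_nonneg (P x * l + H x)]
      exact nonneg_of_mul_nonneg_right h6 h5
  have h2 := discrim_le_zero h1
  unfold discrim at h2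
  nlinarith

theorem star4_of {m : ℕ} {C : Finset (ZMod m)} {θ : ZMod m → ZMod m → ℝ} {g f : ℤ →₀ ℝ}
    (hmu : Continuous (muf C f)) (hwf : Continuous (wf C θ f))
    (h8 : 35 / 8 * (∫ x in (0:ℝ)..1, muf C f x ^ 4) +
      20 / 3 * (∫ x in (0:ℝ)..1, muf C f x ^ 2 * wf C θ f x) +
      32 / 75 * (∫ x in (0:ℝ)..1, wf C θ f x ^ 2) ≤ Mc 4 f)
    (h2 : AJ 6 2 g f = ∫ x in (0:ℝ)..1, cosp g x ^ 6 * muf C f x)
    (h3 : ∃ T : ℝ → ℝ, Continuous T ∧ (∀ x, T x ^ 2 ≤ muf C f x * wf C θ f x) ∧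
      AJ 5 3 g f = ∫ x in (0:ℝ)..1, cosp g x ^ 5 * T x)
    (hpw : ∀ {μ w ν : ℝ}, 0 ≤ μ → 0 ≤ w → 0 ≤ ν →
      ν ^ 4 = 35 / 8 * μ ^ 4 + 20 / 3 * μ ^ 2 * w + 32 / 75 * w ^ 2 →
      7 / c4 * μ ≤ ν ∧ μ * w ≤ 217 / 250 * ν ^ 2 * (ν - 7 / c4 * μ))
    {G y : ℝ} (hG0 : 0 < G) (hy : 0 ≤ y)
    (hG : Mc 4 g ≤ G) (hF : Mc 4 f ≤ G * y ^ 4) :
    0 ≤ AJ 6 2 g f ∧ 7 / c4 * AJ 6 2 g f ≤ G * y ∧
      AJ 5 3 g f ^ 2 ≤ 217 / 250 * G * y ^ 2 * (G * y - 7 / c4 * AJ 6 2 g f) := by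
  have hg := cosp_cont g
  have mu0 : ∀ x, 0 ≤ muf C f x := fun x => by
    unfold muf
    exact Finset.sum_nonneg fun c _ => by positivity
  have w0 : ∀ x, 0 ≤ wf C θ f x := fun x => by
    unfold wf
    exact Finset.sum_nonneg fun c _ => by positivity
  obtain ⟨ν, hν⟩ : ∃ ν : ℝ → ℝ, ν = fun x => (35 / 8 * muf C f x ^ 4 +
    20 / 3 * muf C f x ^ 2 * wf C θ f x + 32 / 75 * wf C θ f x ^ 2) ^ ((1:ℝ) / 4) := ⟨_, rfl⟩
  have hS0 : ∀ x, 0 ≤ 35 / 8 * muf C f x ^ 4 +
      20 / 3 * muf C f x ^ 2 * wf C θ f x + 32 / 75 * wf C θ f x ^ 2 := fun x => by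
    have := mu0 x
    have := w0 x
    positivity
  have ν0 : ∀ x, 0 ≤ ν x := fun x => by
    rw [hν]
    exact Real.rpow_nonneg (hS0 x) _
  have ν4 : ∀ x, ν x ^ 4 = 35 / 8 * muf C f x ^ 4 +
      20 / 3 * muf C f x ^ 2 * wf C θ f x + 32 / 75 * wf C θ f x ^ 2 := fun x => by
    rw [hν]
    show ((35 / 8 * muf C f x ^ 4 + 20 / 3 * muf C f x ^ 2 * wf C θ f x +
      32 / 75 * wf C θ f x ^ 2) ^ ((1:ℝ) / 4)) ^ 4 = _
    rw [← Real.rpow_natCast, ← Real.rpow_mul (hS0 x)]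
    norm_num
  have νc : Continuous ν := by
    rw [hν]
    refine Continuous.rpow_const ?_ fun x => Or.inr (by norm_num)
    fun_prop
  have hpw' : ∀ x, 7 / c4 * muf C f x ≤ ν x ∧
      muf C f x * wf C θ f x ≤ 217 / 250 * ν x ^ 2 * (ν x - 7 / c4 * muf C f x) :=
    fun x => hpw (mu0 x) (w0 x) (ν0 x) (ν4 x)
  -- the fourth moment of `ν`
  have hν4 : ∫ x in (0:ℝ)..1, ν x ^ 4 ≤ G * y ^ 4 := by
    refine le_trans (le_of_eq ?_) (h8.trans hF)
    simp_rw [ν4]
    rw [intervalIntegral.integral_add, intervalIntegral.integral_add,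
      intervalIntegral.integral_const_mul, intervalIntegral.integral_const_mul]
    · congr 2
      rw [← intervalIntegral.integral_const_mul]
      refine intervalIntegral.integral_congr fun x _ => ?_
      show _ = 20 / 3 * (muf C f x ^ 2 * wf C θ f x)
      ring
    · exact (by fun_prop : Continuous fun x => 35 / 8 * muf C f x ^ 4).intervalIntegrable _ _
    · exact (by fun_prop : Continuous fun x =>
        20 / 3 * muf C f x ^ 2 * wf C θ f x).intervalIntegrable _ _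
    · exact (by fun_prop : Continuous fun x => 35 / 8 * muf C f x ^ 4 +
        20 / 3 * muf C f x ^ 2 * wf C θ f x).intervalIntegrable _ _
    · exact (by fun_prop : Continuous fun x => 32 / 75 * wf C θ f x ^ 2).intervalIntegrable _ _
  have hg8 : ∫ x in (0:ℝ)..1, cosp g x ^ 8 ≤ G := hG
  have ig8 : 0 ≤ ∫ x in (0:ℝ)..1, cosp g x ^ 8 :=
    intervalIntegral.integral_nonneg zero_le_one fun x _ => by positivity
  have iν4 : 0 ≤ ∫ x in (0:ℝ)..1, ν x ^ 4 :=
    intervalIntegral.integral_nonneg zero_le_one fun x _ => by positivity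
  -- `∫ g^4 ν^2`
  have i42 : 0 ≤ ∫ x in (0:ℝ)..1, cosp g x ^ 4 * ν x ^ 2 :=
    intervalIntegral.integral_nonneg zero_le_one fun x _ => by positivity
  have b42 : ∫ x in (0:ℝ)..1, cosp g x ^ 4 * ν x ^ 2 ≤ G * y ^ 2 := by
    have t1 := cs (H := fun x => cosp g x ^ 4 * ν x ^ 2) (P := fun x => cosp g x ^ 8)
      (Q := fun x => ν x ^ 4) (by fun_prop) (by fun_prop) (by fun_prop)
      (fun x => by positivity) (fun x => by positivity)
      (fun x => le_of_eq (by ring))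
    have t2 : (∫ x in (0:ℝ)..1, cosp g x ^ 4 * ν x ^ 2) ^ 2 ≤ (G * y ^ 2) ^ 2 := by
      refine t1.trans ((mul_le_mul hg8 hν4 iν4 hG0.le).trans (le_of_eq (by ring)))
    exact le_of_sq_le_sq t2 (by positivity)
  -- `∫ g^6 ν`
  have b61 : ∫ x in (0:ℝ)..1, cosp g x ^ 6 * ν x ≤ G * y := by
    have t1 := cs (H := fun x => cosp g x ^ 6 * ν x) (P := fun x => cosp g x ^ 8)
      (Q := fun x => cosp g x ^ 4 * ν x ^ 2) (by fun_prop) (by fun_prop) (by fun_prop)
      (fun x => by positivity) (fun x => by positivity)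
      (fun x => le_of_eq (by ring))
    have t2 : (∫ x in (0:ℝ)..1, cosp g x ^ 6 * ν x) ^ 2 ≤ (G * y) ^ 2 := by
      refine t1.trans ((mul_le_mul hg8 b42 i42 hG0.le).trans (le_of_eq (by ring)))
    exact le_of_sq_le_sq t2 (by positivity)
  have hsub : ∫ x in (0:ℝ)..1, cosp g x ^ 6 * (ν x - 7 / c4 * muf C f x) =
      (∫ x in (0:ℝ)..1, cosp g x ^ 6 * ν x) - 7 / c4 * AJ 6 2 g f := by
    rw [h2, ← intervalIntegral.integral_const_mul, ← intervalIntegral.integral_sub]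
    · refine intervalIntegral.integral_congr fun x _ => ?_
      show cosp g x ^ 6 * (ν x - 7 / c4 * muf C f x) =
        cosp g x ^ 6 * ν x - 7 / c4 * (cosp g x ^ 6 * muf C f x)
      ring
    · exact (by fun_prop : Continuous fun x => cosp g x ^ 6 * ν x).intervalIntegrable _ _
    · exact (by fun_prop : Continuous fun x =>
        7 / c4 * (cosp g x ^ 6 * muf C f x)).intervalIntegrable _ _
  have hsub0 : 0 ≤ ∫ x in (0:ℝ)..1, cosp g x ^ 6 * (ν x - 7 / c4 * muf C f x) :=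
    intervalIntegral.integral_nonneg zero_le_one fun x _ =>
      mul_nonneg (by positivity) (sub_nonneg.2 (hpw' x).1)
  refine ⟨?_, ?_, ?_⟩
  · rw [h2]
    exact intervalIntegral.integral_nonneg zero_le_one fun x _ =>
      mul_nonneg (by positivity) (mu0 x)
  · linarith
  · obtain ⟨T, Tc, T2, hT⟩ := h3
    rw [hT]
    have t1 := cs (H := fun x => cosp g x ^ 5 * T x)
      (P := fun x => 217 / 250 * (cosp g x ^ 4 * ν x ^ 2))
      (Q := fun x => cosp g x ^ 6 * (ν x - 7 / c4 * muf C f x)) (by fun_prop) (by fun_prop)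
      (by fun_prop) (fun x => by positivity)
      (fun x => mul_nonneg (by positivity) (sub_nonneg.2 (hpw' x).1))
      (fun x => by
        have s1 := (T2 x).trans (hpw' x).2
        have s2 : (0:ℝ) ≤ cosp g x ^ 10 := by positivity
        calc (cosp g x ^ 5 * T x) ^ 2 = cosp g x ^ 10 * T x ^ 2 := by ring
          _ ≤ cosp g x ^ 10 * (217 / 250 * ν x ^ 2 * (ν x - 7 / c4 * muf C f x)) :=
            mul_le_mul_of_nonneg_left s1 s2
          _ = _ := by ring)
    refine t1.trans ?_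
    rw [intervalIntegral.integral_const_mul, hsub]
    have s3 : 0 ≤ (∫ x in (0:ℝ)..1, cosp g x ^ 6 * ν x) - 7 / c4 * AJ 6 2 g f := by
      rw [← hsub]
      exact hsub0
    calc 217 / 250 * (∫ x in (0:ℝ)..1, cosp g x ^ 4 * ν x ^ 2) *
          ((∫ x in (0:ℝ)..1, cosp g x ^ 6 * ν x) - 7 / c4 * AJ 6 2 g f)
        ≤ 217 / 250 * (G * y ^ 2) * (G * y - 7 / c4 * AJ 6 2 g f) := by
          refine mul_le_mul (by linarith) (by linarith) s3 (by positivity)
      _ = _ := by ring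

end Pool.Agent.N286.LS
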