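import Pool.Agent.N286.LS.Star4Aux

set_option autoImplicit false

/-! # Project LS (helper356), KS12: the class inequality in `L^8`, with KS9, KS10, KS11 as hypotheses
in the form of `Stm4.lean` -/

namespace Pool.Agent.N286.LS

open Finset Pool.Agent.H384R3.SPk Pool.Agent.N356.SP MeasureTheory

theorem star4
    (muf_cont : ∀ {m : ℕ} {C : Finset (ZMod m)} {f : ℤ →₀ ℝ}, Continuous (muf C f))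
    (wf_cont : ∀ {m : ℕ} {C : Finset (ZMod m)} {θ : ZMod m → ZMod m → ℝ} {f : ℤ →₀ ℝ},
      Continuous (wf C θ f))
    (star8 : ∀ {m : ℕ} {C : Finset (ZMod m)} {θ : ZMod m → ZMod m → ℝ} {f : ℤ →₀ ℝ},
      GoodC C θ → (∀ n, 0 ≤ f n) → (∀ n ∈ f.support, ((n : ℤ) : ZMod m) ∈ C) →
      35 / 8 * (∫ x in (0:ℝ)..1, muf C f x ^ 4) +
        20 / 3 * (∫ x in (0:ℝ)..1, muf C f x ^ 2 * wf C θ f x) +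
        32 / 75 * (∫ x in (0:ℝ)..1, wf C θ f x ^ 2) ≤ Mc 4 f)
    (AJ2_eq : ∀ {m : ℕ} {C : Finset (ZMod m)} {g f : ℤ →₀ ℝ}, (∀ s ∈ C, -s ∈ C) →
      (∀ n, 0 ≤ g n) → (∀ n, 0 ≤ f n) → (∀ n ∈ g.support, ((n : ℤ) : ZMod m) = 0) →
      (∀ n ∈ f.support, ((n : ℤ) : ZMod m) ∈ C) → ∀ i : ℕ,
      AJ i 2 g f = ∫ x in (0:ℝ)..1, cosp g x ^ i * muf C f x)
    (AJ3_eq : ∀ {m : ℕ} {C : Finset (ZMod m)} {θ : ZMod m → ZMod m → ℝ} {f : ℤ →₀ ℝ},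
      GoodC C θ → (∀ n, 0 ≤ f n) → (∀ n ∈ f.support, ((n : ℤ) : ZMod m) ∈ C) →
      ∃ T : ℝ → ℝ, Continuous T ∧ (∀ x, T x ^ 2 ≤ muf C f x * wf C θ f x) ∧
        ∀ (g : ℤ →₀ ℝ), (∀ n, 0 ≤ g n) → (∀ n ∈ g.support, ((n : ℤ) : ZMod m) = 0) →
          ∀ i : ℕ, AJ i 3 g f = ∫ x in (0:ℝ)..1, cosp g x ^ i * T x)
    (pw4 : ∀ {μ w ν : ℝ}, 0 ≤ μ → 0 ≤ w → 0 ≤ ν →
      ν ^ 4 = 35 / 8 * μ ^ 4 + 20 / 3 * μ ^ 2 * w + 32 / 75 * w ^ 2 →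
      7 / c4 * μ ≤ ν ∧ μ * w ≤ 217 / 250 * ν ^ 2 * (ν - 7 / c4 * μ))
    {m : ℕ} {C : Finset (ZMod m)} {θ : ZMod m → ZMod m → ℝ} {g f : ℤ →₀ ℝ}
    (h : GoodC C θ) (hg0 : ∀ n, 0 ≤ g n) (hf0 : ∀ n, 0 ≤ f n)
    (hg : ∀ n ∈ g.support, ((n : ℤ) : ZMod m) = 0)
    (hf : ∀ n ∈ f.support, ((n : ℤ) : ZMod m) ∈ C) {G y : ℝ} (hG0 : 0 < G) (hy : 0 ≤ y)
    (hG : Mc 4 g ≤ G) (hF : Mc 4 f ≤ G * y ^ 4) :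
    0 ≤ AJ 6 2 g f ∧ 7 / c4 * AJ 6 2 g f ≤ G * y ∧
      AJ 5 3 g f ^ 2 ≤ 217 / 250 * G * y ^ 2 * (G * y - 7 / c4 * AJ 6 2 g f) := by
  obtain ⟨T, Tc, T2, hT⟩ := AJ3_eq h hf0 hf
  exact star4_of muf_cont wf_cont (star8 h hf0 hf) (AJ2_eq h.neg hg0 hf0 hg hf 6)
    ⟨T, Tc, T2, hT g hg0 hg 5⟩ pw4 hG0 hy hG hF

end Pool.Agent.N286.LS
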